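import Pool.Agent.Work.MP_db9399_h.Interface
import Pool.Agent.Work.MP_db9399_ox_helper35.OXF

/-!
# MP_db9399, block OXFH (helper63): the gadgets of all classes are filled, with `Mt0H`
Proof of OXF (helper35), with `ClsH`, `ResH`, `Mt0H`.
-/

set_option autoImplicit false

namespace Pool.Agent.Work.MP_db9399_h.helper63

open Finset Classical
open Pool.Agent.Work.MP_db9399_all (nb)
open Pool.Agent.Work.MP_db9399_sg
open Pool.Agent.Work.MP_db9399_sg.helper79 (mem_nsd)
open Pool.Agent.Work.MP_db9399_ox (Mt1)
open Pool.Agent.Work.MP_db9399_ox.helper35 (step2)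

universe u

/-- OXFH: the gadgets are filled. -/
def Stmt_OXFH : Prop :=
  ∀ {V I I' J : Type u} [Fintype V] [Fintype I] [Fintype I'] [Fintype J] (P : ℕ)
    (cl : Fin P → J) (H Gh S : J → SimpleGraph V) (O W VH K : Finset V) (A : J → Finset V)
    (X : V → Finset (Fin P)) (nd : J → V → Option (I × Bool)) (pr : I → I') (d : ℕ)
    (D r : J → ℕ) (a β C C' βS ρ2 ε1 ρ1 : ℝ) (L : ℕ) (N0 : Fin P → V → V), (∀ j, 16 ≤ D j) →
    ClsH H Gh O W VH A nd pr d D r a β C C' →
    (∀ j, (univ.filter fun b => cl b = j).card + r j = D j) →
    (∀ j, ResH (H j) (Gh j) (S j) O (A j) (D j) (r j) a βS ρ2 K) →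
    Mt0H H S cl O VH X nd pr d D r a ε1 ρ1 L N0 →
    ∃ N : Fin P → V → V, Mt1 S cl W nd N0 N

theorem stmt_OXFH : Stmt_OXFH.{u} := by
  intro V I I' J _ _ _ _ P cl H Gh S O W VH K A X nd pr d D r a β C C' βS ρ2 ε1 ρ1 L N0
    hD hC hP hR hM
  have hN0W : ∀ b v, N0 b v ≠ v → v ∈ W ∧ N0 b v ∈ W := by
    intro b v hv
    have h1 := (hM.NG b v hv).1
    exact ⟨hC.HW _ _ _ h1, hC.HW _ _ _ h1.symm⟩
  have key : ∀ B : Finset (Fin P), ∃ N' : Fin P → V → V, (∀ b, b ∉ B → N' b = N0 b) ∧
      (∀ b v, N' b (N' b v) = v) ∧
      (∀ b v, N0 b v ≠ v → N' b v = N0 b v) ∧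
      (∀ b v, N0 b v = v → N' b v ≠ v → ∃ i s, nd (cl b) v = some (i, s) ∧
        nd (cl b) (N' b v) = some (i, !s) ∧
        ¬ (S (cl b)).Adj v (N' b v) ∧ (v ∉ W ∨ N' b v ∉ W)) ∧
      (∀ b b' v, N' b v ≠ v → N' b v = N' b' v → b = b') ∧
      (∀ b ∈ B, ∀ v, nd (cl b) v ≠ none → N' b v = v → v ∉ W) ∧
      ∀ b ∈ B, ∀ i, ((nod (nd (cl b)) i).filter fun v => N' b v = v).card =
        (sgn (nd (cl b)) N0 i b).natAbs := by
    intro B
    induction B using Finset.induction_on with
    | empty =>
      refine ⟨N0, fun _ _ => rfl, hM.NN, fun _ _ _ => rfl, ?_, hM.Nd, ?_, ?_⟩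
      · intro b v h1 h2
        exact absurd h1 h2
      · intro b hb
        exact absurd hb (Finset.notMem_empty b)
      · intro b hb
        exact absurd hb (Finset.notMem_empty b)
    | insert b0 B hb0 ih =>
      obtain ⟨M, m1, m2, m3, m4, m5, m6, m7⟩ := ih
      have hM0 : M b0 = N0 b0 := m1 b0 hb0
      obtain ⟨Fb, hFbd⟩ : ∃ Fb : V → V → Prop, ∀ v w,
          Fb v w ↔ ((S (cl b0)).Adj v w ∨ (v ∈ W ∧ w ∈ W) ∨ ∃ b, cl b = cl b0 ∧ M b v = w) :=
        ⟨_, fun _ _ => Iff.rfl⟩
      have hsy : ∀ v w, Fb v w → Fb w v := by
        intro v w hvw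
        rw [hFbd] at hvw ⊢
        rcases hvw with h | h | ⟨b, h', h⟩
        · exact Or.inl h.symm
        · exact Or.inr (Or.inl ⟨h.2, h.1⟩)
        · refine Or.inr (Or.inr ⟨b, h', ?_⟩)
          rw [← h, m2]
      have hsz := hC.sz (cl b0)
      obtain ⟨Fi, hFi⟩ : ∃ Fi : I → V → V → Prop, ∀ i v w, Fi i v w ↔
          (∃ s, nd (cl b0) v = some (i, s) ∧ nd (cl b0) w = some (i, !s)) ∧ Fb v w :=
        ⟨_, fun _ _ _ => Iff.rfl⟩
      have hFb : ∀ i v, (univ.filter fun w => Fi i v w).card ≤
          (nsd (nd (cl b0)) i false).card / 4 := by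
        intro i v
        by_cases hv : ∃ s, nd (cl b0) v = some (i, s)
        · obtain ⟨s, hs⟩ := hv
          have h1 : (univ.filter fun w => Fi i v w) ⊆
              (nb (S (cl b0)) v ∪ (nsd (nd (cl b0)) i (!s) ∩ W)) ∪
                (univ.filter fun b => cl b = cl b0).image fun b => M b v := by
            intro w hw
            rw [Finset.mem_filter, hFi] at hw
            obtain ⟨-, ⟨s', hs', hw'⟩, hF⟩ := hw
            have e1 : s' = s := (congrArg Prod.snd (Option.some.inj (hs.symm.trans hs'))).symm
            rw [Finset.mem_union, Finset.mem_union, Finset.mem_image]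
            rcases (hFbd _ _).mp hF with h | h | ⟨b, h', h⟩
            · refine Or.inl (Or.inl ?_)
              unfold nb
              rw [Finset.mem_filter]
              exact ⟨Finset.mem_univ _, h⟩
            · refine Or.inl (Or.inr (Finset.mem_inter.mpr ⟨mem_nsd.mpr ?_, h.2⟩))
              rw [hw', e1]
            · exact Or.inr ⟨b, Finset.mem_filter.mpr ⟨Finset.mem_univ _, h'⟩, h⟩
          have h2 := Finset.card_le_card h1
          have h3 := Finset.card_union_le (nb (S (cl b0)) v ∪ (nsd (nd (cl b0)) i (!s) ∩ W))
            ((univ.filter fun b => cl b = cl b0).image fun b => M b v)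
          have h4 := Finset.card_union_le (nb (S (cl b0)) v) (nsd (nd (cl b0)) i (!s) ∩ W)
          have h5 : ((univ.filter fun b => cl b = cl b0).image fun b => M b v).card ≤
              (univ.filter fun b => cl b = cl b0).card := Finset.card_image_le
          have h6 := (hR (cl b0)).hi v
          have h7 := hP (cl b0)
          have h8 := hsz i (!s) false
          have h9 := hD (cl b0)
          omega
        · have h1 : (univ.filter fun w => Fi i v w) = ∅ := by
            rw [Finset.filter_eq_empty_iff]
            intro w _ hw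
            obtain ⟨⟨s, hs, -⟩, -⟩ := (hFi _ _ _).mp hw
            exact hv ⟨s, hs⟩
          rw [h1]
          simp
      obtain ⟨M', a1, a2, a3, a4, a5⟩ := step2 (nd (cl b0)) W (N0 b0) Fb
        (fun i => (nsd (nd (cl b0)) i false).card / 4) ((hC.wld (cl b0)).sz)
        (fun i s => by
          have := hsz i s s
          omega)
        (fun i s => by
          have h1 := (hC.wld (cl b0)).sz i
          cases s
          · omega
          · omega)
        (fun v hv hvW => by
          by_contra h
          exact hvW (hN0W b0 v h).1) (hM.NN b0) Fi hFi hFb hsy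
      refine ⟨Function.update M b0 M', ?_, ?_, ?_, ?_, ?_, ?_, ?_⟩
      · intro b hb
        rw [Finset.mem_insert, not_or] at hb
        rw [Function.update_of_ne hb.1]
        exact m1 b hb.2
      · intro b v
        by_cases hb : b = b0
        · subst hb
          rw [Function.update_self]
          exact a1 v
        · rw [Function.update_of_ne hb]
          exact m2 b v
      · intro b v
        by_cases hb : b = b0
        · subst hb
          rw [Function.update_self]
          exact a2 v
        · rw [Function.update_of_ne hb]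
          exact m3 b v
      · intro b v
        by_cases hb : b = b0
        · subst hb
          rw [Function.update_self]
          intro h1 h2
          obtain ⟨i, s, h3, h4, h5⟩ := a3 v h1 h2
          rw [hFbd, not_or, not_or] at h5
          exact ⟨i, s, h3, h4, h5.1, not_and_or.mp h5.2.1⟩
        · rw [Function.update_of_ne hb]
          exact m4 b v
      · have hmix : ∀ b v, b ≠ b0 → M' v ≠ v → M' v = M b v → False := by
          intro b v hb h1 h2
          by_cases h3 : N0 b0 v = v
          · obtain ⟨i, s, h4, h5, h6⟩ := a3 v h3 h1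
            rw [hFbd, not_or, not_or] at h6
            obtain ⟨-, h7, h8⟩ := h6
            have hMb : M b v ≠ v := by
              rw [← h2]
              exact h1
            by_cases h9 : N0 b v = v
            · obtain ⟨i', s', h10, h11, -, -⟩ := m4 b v h9 hMb
              have hA : ∀ y, nd (cl b0) y ≠ none → y ∈ A (cl b0) := (hC.wld (cl b0)).nA
              have hA' : ∀ y, nd (cl b) y ≠ none → y ∈ A (cl b) := (hC.wld (cl b)).nA
              have hcl : cl b = cl b0 := by
                rcases not_and_or.mp h7 with h12 | h12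
                · exact hC.one _ _ v h12 (hA' v (by rw [h10]; simp)) (hA v (by rw [h4]; simp))
                · refine hC.one _ _ (M' v) h12 (hA' _ ?_) (hA _ (by rw [h5]; simp))
                  rw [h2, h11]
                  simp
              exact h8 ⟨b, hcl, h2.symm⟩
            · have h10 := hN0W b v h9
              rw [← m3 b v h9, ← h2] at h10
              exact h7 h10
          · have h4 := a2 v h3
            rw [h4, ← hM0] at h1 h2
            exact hb (m5 b0 b v h1 h2).symm
        intro b b' v h1 h2
        by_cases hb : b = b0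
        · subst hb
          by_cases hb' : b' = b
          · exact hb'.symm
          · rw [Function.update_self] at h1 h2
            rw [Function.update_of_ne hb'] at h2
            exact (hmix b' v hb' h1 h2).elim
        · rw [Function.update_of_ne hb] at h1 h2
          by_cases hb' : b' = b0
          · subst hb'
            rw [Function.update_self] at h2
            rw [h2] at h1
            exact (hmix b v hb h1 h2.symm).elim
          · rw [Function.update_of_ne hb'] at h2
            exact m5 b b' v h1 h2
      · intro b hb v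
        by_cases hb' : b = b0
        · subst hb'
          rw [Function.update_self]
          exact a4 v
        · rw [Function.update_of_ne hb']
          exact m6 b (Finset.mem_of_mem_insert_of_ne hb hb') v
      · intro b hb i
        by_cases hb' : b = b0
        · subst hb'
          rw [Function.update_self]
          exact a5 i
        · rw [Function.update_of_ne hb']
          exact m7 b (Finset.mem_of_mem_insert_of_ne hb hb') i
  obtain ⟨N', -, n2, n3, n4, n5, n6, n7⟩ := key univ
  exact ⟨N', ⟨n2, n3, n4, n5, fun b v => n6 b (Finset.mem_univ b) v,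
    fun b i => n7 b (Finset.mem_univ b) i⟩⟩

end Pool.Agent.Work.MP_db9399_h.helper63
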